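import Pool.Agent.H625Z.PP.Dig

set_option autoImplicit false

namespace Pool.Agent.H625Z.PP

/-- product of two relations. -/
def prodRel {B : Type} {r s : ℕ} (R : Set (Fin r → B)) (R' : Set (Fin s → B)) :
    Set (Fin (r + s) → B) :=
  {y | (fun i => y (Fin.castAdd s i)) ∈ R ∧ (fun i => y (Fin.natAdd r i)) ∈ R'}

theorem append_mem {B : Type} {r s : ℕ} {R : Set (Fin r → B)} {R' : Set (Fin s → B)}
    {a : Fin r → B} {b : Fin s → B} (ha : a ∈ R) (hb : b ∈ R') :
    Fin.append a b ∈ prodRel R R' := by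
  refine ⟨?_, ?_⟩
  · simpa using ha
  · simpa using hb

theorem pres_prod {B ι : Type} {r s : ℕ} {R : Set (Fin r → B)} {R' : Set (Fin s → B)}
    (hR : R.Nonempty) (hR' : R'.Nonempty) (f : (ι → B) → B) :
    Pres f (prodRel R R') ↔ Pres f R ∧ Pres f R' := by
  obtain ⟨a, ha⟩ := hR
  obtain ⟨b, hb⟩ := hR'
  constructor
  · intro h
    refine ⟨fun ρ hρ => ?_, fun ρ hρ => ?_⟩
    · have := (h (fun l => Fin.append (ρ l) b) (fun l => append_mem (hρ l) hb)).1
      simpa using this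
    · have := (h (fun l => Fin.append a (ρ l)) (fun l => append_mem ha (hρ l))).2
      simpa using this
  · rintro ⟨h1, h2⟩ ρ hρ
    exact ⟨h1 (fun l i => ρ l (Fin.castAdd s i)) (fun l => (hρ l).1),
      h2 (fun l i => ρ l (Fin.natAdd r i)) (fun l => (hρ l).2)⟩

/-! The four element domain: `0` is minus, `1` is zero, `2` is a weak plus, `3` is plus. -/

/-- the `j`-ary relation. -/
def RR (j : ℕ) : Set (Fin j → Fin 4) :=
  {y | ((∀ c, y c ≠ 0) ∧ ∃ c, y c ≠ 1) ∨ ∃ c, y c = 0 ∧ ∀ c', c' ≠ c → y c' = 3}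

/-- the splitting relation. -/
def SS (y x x' : Fin 4) : Prop :=
  (x ≠ 0 ∧ x' ≠ 0 ∧ (y = 3 → x = 3 ∧ x' = 3) ∧ (y = 2 → x ≠ 1 ∨ x' ≠ 1)) ∨
    (y = 0 ∧ ((x = 0 ∧ x' = 3) ∨ (x = 3 ∧ x' = 0)))

/-- negation. -/
def NN (x x' : Fin 4) : Prop := (x = 0 ∧ x' = 3) ∨ (x = 1 ∧ x' = 1) ∨ (x = 3 ∧ x' = 0)

/-- graph of the join on `{1, 3}`. -/
def DD (c c1 c2 : Fin 4) : Prop :=
  (c = 1 ∨ c = 3) ∧ (c1 = 1 ∨ c1 = 3) ∧ (c2 = 1 ∨ c2 = 3) ∧ (c = 3 ↔ c1 = 3 ∨ c2 = 3)

/-- guarded equality. -/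
def EE (a b c : Fin 4) : Prop := c = 3 ∨ (c = 1 ∧ a = b)

/-- the fixed part of the relation. -/
def TT : Set (Fin 13 → Fin 4) :=
  {z | SS (z 0) (z 1) (z 2) ∧ NN (z 3) (z 4) ∧ DD (z 5) (z 6) (z 7) ∧ EE (z 8) (z 9) (z 10) ∧
    z 11 = 1 ∧ z 12 = 3}

/-- preservation of the fixed part, component by component. -/
structure Nice {ι : Type} (f : (ι → Fin 4) → Fin 4) : Prop where
  hS : ∀ y x x' : ι → Fin 4, (∀ l, SS (y l) (x l) (x' l)) → SS (f y) (f x) (f x')
  hN : ∀ x x' : ι → Fin 4, (∀ l, NN (x l) (x' l)) → NN (f x) (f x')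
  hD : ∀ y x x' : ι → Fin 4, (∀ l, DD (y l) (x l) (x' l)) → DD (f y) (f x) (f x')
  hE : ∀ y x x' : ι → Fin 4, (∀ l, EE (y l) (x l) (x' l)) → EE (f y) (f x) (f x')
  h1 : f (fun _ => 1) = 1
  h3 : f (fun _ => 3) = 3

theorem ss1 : SS 1 1 1 := by simp [SS]
theorem nn1 : NN 1 1 := by simp [NN]
theorem dd1 : DD 1 1 1 := by simp [DD]
theorem ee1 : EE 1 1 1 := by simp [EE]

theorem TT_ne : TT.Nonempty :=
  ⟨![1, 1, 1, 1, 1, 1, 1, 1, 1, 1, 1, 1, 3], ss1, nn1, dd1, ee1, rfl, rfl⟩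

theorem pres_TT {ι : Type} (f : (ι → Fin 4) → Fin 4) : Pres f TT ↔ Nice f := by
  constructor
  · intro h
    refine ⟨fun y x x' hy => ?_, fun x x' hy => ?_, fun y x x' hy => ?_, fun y x x' hy => ?_,
      ?_, ?_⟩
    · exact (h (fun l => ![y l, x l, x' l, 1, 1, 1, 1, 1, 1, 1, 1, 1, 3])
        (fun l => ⟨hy l, nn1, dd1, ee1, rfl, rfl⟩)).1
    · exact (h (fun l => ![1, 1, 1, x l, x' l, 1, 1, 1, 1, 1, 1, 1, 3])
        (fun l => ⟨ss1, hy l, dd1, ee1, rfl, rfl⟩)).2.1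
    · exact (h (fun l => ![1, 1, 1, 1, 1, y l, x l, x' l, 1, 1, 1, 1, 3])
        (fun l => ⟨ss1, nn1, hy l, ee1, rfl, rfl⟩)).2.2.1
    · exact (h (fun l => ![1, 1, 1, 1, 1, 1, 1, 1, y l, x l, x' l, 1, 3])
        (fun l => ⟨ss1, nn1, dd1, hy l, rfl, rfl⟩)).2.2.2.1
    · exact (h (fun _ => ![1, 1, 1, 1, 1, 1, 1, 1, 1, 1, 1, 1, 3])
        (fun _ => ⟨ss1, nn1, dd1, ee1, rfl, rfl⟩)).2.2.2.2.1
    · exact (h (fun _ => ![1, 1, 1, 1, 1, 1, 1, 1, 1, 1, 1, 1, 3])
        (fun _ => ⟨ss1, nn1, dd1, ee1, rfl, rfl⟩)).2.2.2.2.2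
  · intro h ρ hρ
    refine ⟨h.hS _ _ _ (fun l => (hρ l).1), h.hN _ _ (fun l => (hρ l).2.1),
      h.hD _ _ _ (fun l => (hρ l).2.2.1), h.hE _ _ _ (fun l => (hρ l).2.2.2.1), ?_, ?_⟩
    · have : (fun l => ρ l 11) = fun _ => 1 := funext (fun l => (hρ l).2.2.2.2.1)
      simp only [this, h.h1]
    · have : (fun l => ρ l 12) = fun _ => 3 := funext (fun l => (hρ l).2.2.2.2.2)
      simp only [this, h.h3]

theorem RR_ne (j : ℕ) : (RR (j + 1)).Nonempty :=
  ⟨fun _ => 3, Or.inl ⟨fun _ => by simp, 0, by simp⟩⟩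

/-- the whole relation. -/
def Rel (j : ℕ) : Set (Fin (j + 13) → Fin 4) := prodRel (RR j) TT

theorem Rel_ne (j : ℕ) : (Rel (j + 1)).Nonempty := by
  obtain ⟨a, ha⟩ := RR_ne j
  obtain ⟨b, hb⟩ := TT_ne
  exact ⟨_, append_mem ha hb⟩

theorem pres_Rel {ι : Type} (j : ℕ) (f : (ι → Fin 4) → Fin 4) :
    Pres f (Rel (j + 1)) ↔ Pres f (RR (j + 1)) ∧ Nice f := by
  rw [Rel, pres_prod (RR_ne j) TT_ne, pres_TT]

open Classical in
/-- indicator tuple. -/
noncomputable def ind {ι : Type} (T : Set ι) (l : ι) : Fin 4 := if l ∈ T then 3 else 1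

/-- the essential coordinates. -/
def supp {ι : Type} (f : (ι → Fin 4) → Fin 4) : Set ι := {l | f (ind {l}) = 3}

theorem ind_spec {ι : Type} [Finite ι] {f : (ι → Fin 4) → Fin 4} (h : Nice f) (T : Set ι) :
    f (ind T) = 3 ↔ ∃ l ∈ T, l ∈ supp f := by
  classical
  induction T, Set.toFinite T using Set.Finite.induction_on with
  | empty =>
    have : ind (∅ : Set ι) = fun _ => 1 := by
      funext l
      simp [ind]
    rw [this, h.h1]
    simp
  | @insert a s _ _ ih =>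
    have := h.hD (ind (insert a s)) (ind {a}) (ind s) (by
      intro l
      by_cases h1 : l = a
      · subst h1
        by_cases h2 : l ∈ s <;> simp [DD, ind, h2]
      · by_cases h2 : l ∈ s <;> simp [DD, ind, h1, h2])
    rw [this.2.2.2, ih]
    simp [supp]

theorem supp_ne {ι : Type} [Finite ι] {f : (ι → Fin 4) → Fin 4} (h : Nice f) :
    (supp f).Nonempty := by
  have h1 : ind (Set.univ : Set ι) = fun _ => 3 := by
    funext l
    simp [ind]
  obtain ⟨l, -, hl⟩ := (ind_spec h Set.univ).1 (by rw [h1, h.h3])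
  exact ⟨l, hl⟩

theorem supp_dep {ι : Type} [Finite ι] {f : (ι → Fin 4) → Fin 4} (h : Nice f)
    (x y : ι → Fin 4) (hxy : ∀ l ∈ supp f, x l = y l) : f x = f y := by
  have h1 := h.hE x y (ind (supp f)ᶜ) (by
    intro l
    by_cases hl : l ∈ supp f
    · exact Or.inr ⟨by simp [ind, hl], hxy l hl⟩
    · exact Or.inl (by simp [ind, hl]))
  rcases h1 with h1 | h1
  · obtain ⟨l, h2, h3⟩ := (ind_spec h _).1 h1
    exact absurd h3 h2
  · exact h1.2

theorem supp_minor {ι κ : Type} [Finite ι] {f : (ι → Fin 4) → Fin 4} (h : Nice f) (σ : ι → κ) :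
    supp (fun x : κ → Fin 4 => f (fun l => x (σ l))) = σ '' supp f := by
  ext k
  have h1 : (fun l => ind ({k} : Set κ) (σ l)) = ind (σ ⁻¹' {k}) := by
    funext l
    rfl
  change f (fun l => ind ({k} : Set κ) (σ l)) = 3 ↔ _
  rw [h1, ind_spec h]
  constructor
  · rintro ⟨l, h2, h3⟩
    exact ⟨l, h3, h2⟩
  · rintro ⟨l, h2, h3⟩
    exact ⟨l, h3, h2⟩

theorem RR_split (m : ℕ) (x : Fin (m + 3) → Fin 4) :
    x ∈ RR (m + 3) ↔ ∃ y, SS y (x 0) (x 1) ∧
      (Fin.cons y (fun c : Fin (m + 1) => x c.succ.succ) : Fin (m + 2) → Fin 4) ∈ RR (m + 2) := by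
  have h10 : (1 : Fin (m + 3)) = (0 : Fin (m + 2)).succ := rfl
  constructor
  · rintro (⟨h0, c, hc⟩ | ⟨c, hc, h3⟩)
    · by_cases h01 : x 0 ≠ 1 ∨ x 1 ≠ 1
      · refine ⟨2, Or.inl ⟨h0 _, h0 _, fun h => absurd h (by decide), fun _ => h01⟩,
          Or.inl ⟨?_, 0, by simp⟩⟩
        intro c
        refine Fin.cases ?_ (fun c => ?_) c
        · simp
        · simpa using h0 _
      · push Not at h01
        refine ⟨1, Or.inl ⟨h0 _, h0 _, fun h => absurd h (by decide),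
          fun h => absurd h (by decide)⟩, Or.inl ⟨?_, ?_⟩⟩
        · intro c
          refine Fin.cases ?_ (fun c => ?_) c
          · simp
          · simpa using h0 _
        · revert hc
          refine Fin.cases ?_ (fun c => ?_) c
          · intro hc; exact absurd h01.1 hc
          · refine Fin.cases ?_ (fun c => ?_) c
            · intro hc; exact absurd h01.2 hc
            · intro hc; exact ⟨c.succ, by simpa using hc⟩
    · revert hc h3
      refine Fin.cases ?_ (fun c => ?_) c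
      · intro hc h3
        refine ⟨0, Or.inr ⟨rfl, Or.inl ⟨hc, h3 _ (by rw [h10]; exact Fin.succ_ne_zero _)⟩⟩,
          Or.inr ⟨0, by simp, ?_⟩⟩
        intro c'
        refine Fin.cases ?_ (fun c' => ?_) c'
        · intro h; exact absurd rfl h
        · intro _; simpa using h3 _ (Fin.succ_ne_zero _)
      · refine Fin.cases ?_ (fun c => ?_) c
        · intro hc h3
          refine ⟨0, Or.inr ⟨rfl, Or.inr ⟨h3 _ (Fin.succ_ne_zero _).symm, hc⟩⟩,
            Or.inr ⟨0, by simp, ?_⟩⟩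
          intro c'
          refine Fin.cases ?_ (fun c' => ?_) c'
          · intro h; exact absurd rfl h
          · intro _
            simpa using h3 _ (fun h => Fin.succ_ne_zero _ (Fin.succ_injective _ h))
        · intro hc h3
          have a0 : x 0 = 3 := h3 _ (Fin.succ_ne_zero _).symm
          have a1 : x 1 = 3 := h3 _ (by
            rw [h10]; exact fun h => Fin.succ_ne_zero _ (Fin.succ_injective _ h).symm)
          refine ⟨3, Or.inl ⟨by rw [a0]; decide, by rw [a1]; decide, fun _ => ⟨a0, a1⟩,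
            fun h => absurd h (by decide)⟩, Or.inr ⟨c.succ, by simpa using hc, ?_⟩⟩
          intro c'
          refine Fin.cases ?_ (fun c' => ?_) c'
          · intro _; simp
          · intro h
            simpa using h3 _ (fun h' => h (Fin.succ_injective _ h'))
  · rintro ⟨y, hS, hR⟩
    have hall : ∀ P : Fin (m + 3) → Prop, P 0 → P 1 → (∀ c : Fin (m + 1), P c.succ.succ) →
        ∀ c, P c := by
      intro P p0 p1 p2 c
      refine Fin.cases p0 (fun c => ?_) c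
      exact Fin.cases p1 p2 c
    rcases hR with ⟨h0, c, hc⟩ | ⟨c, hc, h3⟩
    · have hy : y ≠ 0 := by simpa using h0 0
      rcases hS with ⟨a0, a1, a2, a3⟩ | hS
      · refine Or.inl ⟨hall _ a0 a1 (fun c => by simpa using h0 c.succ), ?_⟩
        revert hc
        refine Fin.cases ?_ (fun c => ?_) c
        · intro hc
          have hy1 : y ≠ 1 := by simpa using hc
          have : y = 2 ∨ y = 3 := by omega
          rcases this with h | h
          · rcases a3 h with h | h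
            · exact ⟨_, h⟩
            · exact ⟨_, h⟩
          · exact ⟨0, by rw [(a2 h).1]; decide⟩
        · intro hc
          exact ⟨c.succ.succ, by simpa using hc⟩
      · exact absurd hS.1 hy
    · revert hc h3
      refine Fin.cases ?_ (fun c => ?_) c
      · intro hc h3
        have h3' : ∀ c : Fin (m + 1), x c.succ.succ = 3 := fun c => by
          simpa using h3 c.succ (Fin.succ_ne_zero _)
        rcases hS with ⟨a0, a1, a2, a3⟩ | ⟨-, ⟨a0, a1⟩ | ⟨a0, a1⟩⟩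
        · exact Or.inl ⟨hall _ a0 a1 (fun c => by rw [h3']; decide),
            (0 : Fin (m + 1)).succ.succ, by rw [h3']; decide⟩
        · exact Or.inr ⟨0, a0, hall _ (fun h => absurd rfl h) (fun _ => a1) (fun c _ => h3' c)⟩
        · exact Or.inr ⟨1, a1, hall _ (fun _ => a0) (fun h => absurd rfl h) (fun c _ => h3' c)⟩
      · intro hc h3
        have hy : y = 3 := by simpa using h3 0 (Fin.succ_ne_zero _).symm
        rcases hS with ⟨a0, a1, a2, a3⟩ | hS
        · refine Or.inr ⟨c.succ.succ, by simpa using hc,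
            hall _ (fun _ => (a2 hy).1) (fun _ => (a2 hy).2) (fun c' h => ?_)⟩
          have : c'.succ ≠ c.succ := fun h' => h (by rw [h'])
          simpa using h3 _ this
        · rw [hy] at hS
          exact absurd hS.1 (by decide)

theorem pres_step {ι : Type} (m : ℕ) (f : (ι → Fin 4) → Fin 4)
    (h : Pres f (Rel (m + 2))) : Pres f (Rel (m + 3)) := by
  rw [pres_Rel] at h ⊢
  refine ⟨fun ρ hρ => ?_, h.2⟩
  choose y hy1 hy2 using fun l => (RR_split m (ρ l)).1 (hρ l)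
  refine (RR_split m _).2 ⟨f y, h.2.hS _ _ _ hy1, ?_⟩
  have := h.1 _ hy2
  convert this using 1
  funext c
  refine Fin.cases ?_ (fun c => ?_) c <;> simp

theorem no_ts (m : ℕ) (f : (Fin (m + 2) → Fin 4) → Fin 4) (h : Pres f (Rel (m + 2)))
    (hs : ∀ x y, Set.range x = Set.range y → f x = f y) : False := by
  rw [pres_Rel] at h
  let col : Fin (m + 2) → Fin (m + 2) → Fin 4 := fun c l => if l = c then 0 else 3
  have hr : ∀ c, Set.range (col c) = {0, 3} := by
    intro c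
    ext z
    simp only [Set.mem_range, Set.mem_insert_iff, Set.mem_singleton_iff, col]
    constructor
    · rintro ⟨l, rfl⟩
      split_ifs <;> simp
    · rintro (rfl | rfl)
      · exact ⟨c, by simp⟩
      · obtain ⟨l, hl⟩ := exists_ne c
        exact ⟨l, by simp [hl]⟩
  let col' : Fin (m + 2) → Fin 4 := fun l => if l = 0 then 3 else 0
  have hr' : Set.range col' = {0, 3} := by
    ext z
    simp only [Set.mem_range, Set.mem_insert_iff, Set.mem_singleton_iff, col']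
    constructor
    · rintro ⟨l, rfl⟩
      split_ifs <;> simp
    · rintro (rfl | rfl)
      · exact ⟨1, by simp⟩
      · exact ⟨0, by simp⟩
  have h1 := h.1 (fun l c => col c l) (by
    intro l
    refine Or.inr ⟨l, by simp [col], fun c' hc' => ?_⟩
    simp [col, Ne.symm hc'])
  have h2 := h.2.hN (col 0) col' (by
    intro l
    by_cases hl : l = 0 <;> simp [NN, col, col', hl])
  have e1 : ∀ c, f (col c) = f (col 0) := fun c => hs _ _ (by rw [hr, hr])
  have e2 : f col' = f (col 0) := hs _ _ (by rw [hr, hr'])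
  rw [e2] at h2
  have e3 : f (col 0) = 1 := by
    rcases h2 with h2 | h2 | h2
    · exact absurd (h2.1.symm.trans h2.2) (by decide)
    · exact h2.1
    · exact absurd (h2.1.symm.trans h2.2) (by decide)
  rcases h1 with ⟨-, c, hc⟩ | ⟨c, hc, -⟩
  · exact hc ((e1 c).trans e3)
  · exact absurd (hc.symm.trans ((e1 c).trans e3)) (by decide)

open Classical in
/-- the totally symmetric operation. -/
noncomputable def tt {ι : Type} (x : ι → Fin 4) : Fin 4 :=
  if ∃ l, x l = 0 then (if ∃ l, x l = 3 then 1 else 0)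
  else if ∃ l, x l = 3 then 3 else if ∃ l, x l = 2 then 2 else 1

theorem tt_ts {ι : Type} (x y : ι → Fin 4) (h : Set.range x = Set.range y) : tt x = tt y := by
  have : ∀ z, (∃ l, x l = z) ↔ ∃ l, y l = z := fun z => by
    rw [← Set.mem_range, h, Set.mem_range]
  unfold tt
  rw [this 0, this 3, this 2]

theorem tt_zero {ι : Type} (x : ι → Fin 4) : tt x = 0 ↔ (∃ l, x l = 0) ∧ ¬ ∃ l, x l = 3 := by
  unfold tt
  split_ifs <;> simp [*]

theorem tt_three {ι : Type} (x : ι → Fin 4) : tt x = 3 ↔ (¬ ∃ l, x l = 0) ∧ ∃ l, x l = 3 := by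
  unfold tt
  split_ifs <;> simp [*]

theorem tt_two {ι : Type} (x : ι → Fin 4) :
    tt x = 2 ↔ (¬ ∃ l, x l = 0) ∧ (¬ ∃ l, x l = 3) ∧ ∃ l, x l = 2 := by
  unfold tt
  split_ifs <;> simp [*]

theorem tt_ne_one {ι : Type} (x : ι → Fin 4) (h0 : ¬ ∃ l, x l = 0) (l : ι) (hl : x l ≠ 1) :
    tt x ≠ 1 := by
  unfold tt
  rw [if_neg h0]
  split_ifs with h1 h2
  · decide
  · decide
  · have a0 : x l ≠ 0 := fun h => h0 ⟨l, h⟩
    have a3 : x l ≠ 3 := fun h => h1 ⟨l, h⟩
    have a2 : x l ≠ 2 := fun h => h2 ⟨l, h⟩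
    omega

theorem tt_bool {ι : Type} (x : ι → Fin 4) (h : ∀ l, x l = 1 ∨ x l = 3) :
    (tt x = 1 ∨ tt x = 3) ∧ (tt x = 3 ↔ ∃ l, x l = 3) := by
  have h0 : ¬ ∃ l, x l = 0 := by
    rintro ⟨l, hl⟩
    have := h l
    omega
  have h2 : ¬ ∃ l, x l = 2 := by
    rintro ⟨l, hl⟩
    have := h l
    omega
  unfold tt
  rw [if_neg h0, if_neg h2]
  split_ifs with h3 <;> simp [h3]

theorem tt_nice {ι : Type} [Nonempty ι] : Nice (tt : (ι → Fin 4) → Fin 4) := by
  refine ⟨fun y x x' h => ?_, fun x x' h => ?_, fun y x x' h => ?_, fun y x x' h => ?_, ?_, ?_⟩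
  · have k3 : ∀ l, y l = 3 → x l = 3 ∧ x' l = 3 := by
      intro l hl
      rcases h l with h | h
      · exact h.2.2.1 hl
      · omega
    have k0 : ∀ l, x l = 0 → y l = 0 ∧ x' l = 3 := by
      intro l hl
      rcases h l with h | h
      · exact absurd hl h.1
      · omega
    have k0' : ∀ l, x' l = 0 → y l = 0 ∧ x l = 3 := by
      intro l hl
      rcases h l with h | h
      · exact absurd hl h.2.1
      · omega
    by_cases a : tt x = 0
    · obtain ⟨⟨l, hl⟩, a3⟩ := (tt_zero x).1 a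
      refine Or.inr ⟨(tt_zero y).2 ⟨⟨l, (k0 l hl).1⟩, ?_⟩,
        Or.inl ⟨a, (tt_three x').2 ⟨?_, l, (k0 l hl).2⟩⟩⟩
      · rintro ⟨l', hl'⟩
        exact a3 ⟨l', (k3 l' hl').1⟩
      · rintro ⟨l', hl'⟩
        exact a3 ⟨l', (k0' l' hl').2⟩
    by_cases a' : tt x' = 0
    · obtain ⟨⟨l, hl⟩, a3⟩ := (tt_zero x').1 a'
      refine Or.inr ⟨(tt_zero y).2 ⟨⟨l, (k0' l hl).1⟩, ?_⟩,
        Or.inr ⟨(tt_three x).2 ⟨?_, l, (k0' l hl).2⟩, a'⟩⟩
      · rintro ⟨l', hl'⟩
        exact a3 ⟨l', (k3 l' hl').2⟩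
      · rintro ⟨l', hl'⟩
        exact a3 ⟨l', (k0 l' hl').2⟩
    refine Or.inl ⟨a, a', fun b => ?_, fun b => ?_⟩
    · obtain ⟨b0, l, hl⟩ := (tt_three y).1 b
      refine ⟨(tt_three x).2 ⟨?_, l, (k3 l hl).1⟩, (tt_three x').2 ⟨?_, l, (k3 l hl).2⟩⟩
      · rintro ⟨l', hl'⟩
        exact b0 ⟨l', (k0 l' hl').1⟩
      · rintro ⟨l', hl'⟩
        exact b0 ⟨l', (k0' l' hl').1⟩
    · obtain ⟨b0, -, l, hl⟩ := (tt_two y).1 b
      have c0 : ¬ ∃ l, x l = 0 := by
        rintro ⟨l', hl'⟩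
        exact b0 ⟨l', (k0 l' hl').1⟩
      have c0' : ¬ ∃ l, x' l = 0 := by
        rintro ⟨l', hl'⟩
        exact b0 ⟨l', (k0' l' hl').1⟩
      rcases h l with h | h
      · rcases h.2.2.2 hl with h | h
        · exact Or.inl (tt_ne_one x c0 l h)
        · exact Or.inr (tt_ne_one x' c0' l h)
      · omega
  · have k0 : (∃ l, x l = 0) ↔ ∃ l, x' l = 3 := by
      refine exists_congr fun l => ?_
      have := h l
      unfold NN at this
      omega
    have k3 : (∃ l, x l = 3) ↔ ∃ l, x' l = 0 := by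
      refine exists_congr fun l => ?_
      have := h l
      unfold NN at this
      omega
    have k2 : ¬ ∃ l, x l = 2 := by
      rintro ⟨l, hl⟩
      have := h l
      unfold NN at this
      omega
    have k2' : ¬ ∃ l, x' l = 2 := by
      rintro ⟨l, hl⟩
      have := h l
      unfold NN at this
      omega
    unfold tt NN
    rw [k0, k3]
    split_ifs <;> simp
  · have a := tt_bool y (fun l => (h l).1)
    have b := tt_bool x (fun l => (h l).2.1)
    have c := tt_bool x' (fun l => (h l).2.2.1)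
    refine ⟨a.1, b.1, c.1, ?_⟩
    rw [a.2, b.2, c.2, ← exists_or]
    exact exists_congr fun l => (h l).2.2.2
  · have c := tt_bool x' (fun l => by
      rcases h l with h | h
      · exact Or.inr h
      · exact Or.inl h.1)
    by_cases h3 : tt x' = 3
    · exact Or.inl h3
    · refine Or.inr ⟨c.1.resolve_right h3, ?_⟩
      congr 1
      funext l
      rcases h l with h | h
      · exact absurd (c.2.2 ⟨l, h⟩) h3
      · exact h.2
  · simp [tt]
  · simp [tt]

theorem tt_RR (n j : ℕ) (hn : n + 1 < j) : Pres (tt : (Fin (n + 1) → Fin 4) → Fin 4) (RR j) := by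
  classical
  intro ρ hρ
  have k0 : ∀ l c, ρ l c = 0 → ∀ c', c' ≠ c → ρ l c' = 3 := by
    intro l c hc c' hc'
    rcases hρ l with h | ⟨c0, h1, h2⟩
    · exact absurd hc (h.1 c)
    · by_cases e : c = c0
      · exact h2 c' (e ▸ hc')
      · have := h2 c e
        omega
  by_cases h0 : ∃ c, tt (fun l => ρ l c) = 0
  · obtain ⟨c, hc⟩ := h0
    obtain ⟨⟨l, hl⟩, a3⟩ := (tt_zero _).1 hc
    refine Or.inr ⟨c, hc, fun c' hc' => (tt_three _).2 ⟨?_, l, k0 l c hl c' hc'⟩⟩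
    rintro ⟨l', hl'⟩
    exact a3 ⟨l', k0 l' c' hl' c (Ne.symm hc')⟩
  · refine Or.inl ⟨fun c hc => h0 ⟨c, hc⟩, ?_⟩
    by_cases h1 : ∃ l c, ρ l c = 0
    · obtain ⟨l0, c0, hlc⟩ := h1
      have : ∃ c, ¬ ∃ l, ρ l c = 0 := by
        by_contra hc
        push Not at hc
        choose g hg using hc
        have hinj : Function.Injective g := by
          intro c c' e
          by_contra hne
          have h1 := k0 (g c) c (hg c) c' (Ne.symm hne)
          have h2 := hg c'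
          rw [← e] at h2
          omega
        have := Fintype.card_le_of_injective g hinj
        simp at this
        omega
      obtain ⟨c, hc⟩ := this
      refine ⟨c, tt_ne_one _ hc l0 ?_⟩
      have : c ≠ c0 := fun e => hc ⟨l0, e ▸ hlc⟩
      rw [k0 l0 c0 hlc c this]
      decide
    · rcases hρ 0 with ⟨-, c, hc⟩ | ⟨c, hc, -⟩
      · exact ⟨c, tt_ne_one _ (fun ⟨l, hl⟩ => h1 ⟨l, c, hl⟩) 0 hc⟩
      · exact absurd ⟨0, c, hc⟩ h1

noncomputable instance vxFintype (r : ℕ) : Fintype (Vx (Fin 4) r) := Fintype.ofFinite _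

instance vxNonempty (r : ℕ) : Nonempty (Vx (Fin 4) r) := ⟨⟨0, fun _ => 0, 0, 0⟩⟩

/-- the chain. -/
noncomputable def GG (i : ℕ) : Digraph (Fin (Fintype.card (Vx (Fin 4) (i + 2 + 13)))) :=
  toFin (Vx (Fin 4) (i + 2 + 13)) (DAdj (Rel (i + 2)))

theorem GG_up (i : ℕ) : PPC _ (GG i) _ (GG (i + 1)) := by
  let ρ0 : Fin (i + 2 + 13) → Fin 4 := fun _ => 0
  refine ppc_of_map (DAdj (Rel (i + 2))) (DAdj (Rel (i + 3)))
    (fun φ => xi (zeta ρ0 φ) (supp (zeta ρ0 φ)) id) ?_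
  intro h hh
  have h1 : Pres (zeta ρ0 h) (Rel (i + 2)) := zeta_pres _ ρ0 0 h hh
  have h2 := pres_step i _ h1
  have h3 : Nice (zeta ρ0 h) := ((pres_Rel _ _).1 h1).2
  have h4 := xi_pol (Rel (i + 3)) (Rel_ne _) _ h2 _ (supp_ne h3) (supp_dep h3)
    (fun e => e.1.1) (fun e => e.1.2) (fun e => e.2)
  have key : ∀ σ : {p : Vx (Fin 4) (i + 3 + 13) × Vx (Fin 4) (i + 3 + 13) //
      DAdj (Rel (i + 3)) p.1 p.2} → Vx (Fin 4) (i + 3 + 13),
      xi (zeta ρ0 (fun x => h (fun e => x (σ e))))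
        (supp (zeta ρ0 (fun x => h (fun e => x (σ e))))) id =
      xi (zeta ρ0 h) (supp (zeta ρ0 h)) σ := by
    intro σ
    have e1 : zeta ρ0 (fun x => h (fun e => x (σ e))) =
        fun x => zeta ρ0 h (fun e => x (σ e)) := rfl
    rw [e1, supp_minor h3 σ, xi_minor]
    rfl
  rw [← key, ← key] at h4
  exact h4

theorem GG_down (i : ℕ) : ¬ PPC _ (GG (i + 1)) _ (GG i) := by
  intro h
  have h1 : HasTS (GG (i + 1)).Adj (i + 2) := by
    refine (hasTS_toFin _ _).2 (hasTS_of_ts (Rel (i + 3)) (Rel_ne _) (by omega) tt ?_ tt_ts)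
    exact (pres_Rel _ _).2 ⟨tt_RR _ _ (by omega), tt_nice⟩
  obtain ⟨φ, h2, h3⟩ := (hasTS_toFin _ _).1 (hasTS_of_ppc h h1)
  exact no_ts i (zeta (fun _ => 0) φ) (zeta_pres _ _ 0 φ h2) (zeta_ts _ φ h3)

end Pool.Agent.H625Z.PP
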