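import Pool.Agent.H625Z.PP.General

set_option autoImplicit false

namespace Pool.Agent.H625Z.PP

/-- `f` preserves the relation `R`. -/
def Pres {B ι : Type} {r : ℕ} (f : (ι → B) → B) (R : Set (Fin r → B)) : Prop :=
  ∀ ρ : ι → Fin r → B, (∀ l, ρ l ∈ R) → (fun i => f (fun l => ρ l i)) ∈ R

/-- vertices: element, tuple, level, kind (0 = sink, 1 = junction, 2 = source, 3 = spare path). -/
structure Vx (B : Type) (r : ℕ) where
  b : B
  ρ : Fin r → B
  L : Fin (r + 3)
  x : Fin 4

instance {B : Type} [Finite B] {r : ℕ} : Finite (Vx B r) :=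
  Finite.of_injective (fun v : Vx B r => (v.b, v.ρ, v.L, v.x)) (by
    rintro ⟨_, _, _, _⟩ ⟨_, _, _, _⟩ h
    simp only [Prod.mk.injEq] at h
    obtain ⟨rfl, rfl, rfl, rfl⟩ := h
    rfl)

variable {B : Type} {r : ℕ}

/-- the digraph attached to a relation. -/
def DAdj (R : Set (Fin r → B)) (u v : Vx B r) : Prop :=
  v.L.val = u.L.val + 1 ∧
    ((u.x = 3 ∧ v.x = 3 ∧ v.L.val ≤ r + 1) ∨
     (u.x ≠ 3 ∧ v.x ≠ 3 ∧ u.x ≠ 0 ∧ v.x ≠ 2 ∧ (v.L.val ≤ r + 1 → u.b = v.b) ∧
      (1 ≤ u.L.val → u.ρ = v.ρ) ∧ v.ρ ∈ R ∧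
      (u.x = 1 → v.x = 1 → ∀ i : Fin r, i.val + 1 = u.L.val → v.ρ i = u.b)))

/-- least level of a set of vertices. -/
noncomputable def lv (S : Set (Vx B r)) : ℕ := sInf ((fun w : Vx B r => w.L.val) '' S)

/-- all vertices of the set are on one level of the main part. -/
def Good (S : Set (Vx B r)) : Prop := ∀ w ∈ S, w.x ≠ 3 ∧ w.L.val = lv S

open Classical in
/-- the kind of the image vertex. -/
noncomputable def kind (S : Set (Vx B r)) : Fin 4 :=
  if ∃ w ∈ S, w.x = 2 then
    (if ∃ w ∈ S, w.x = 1 ∧ ∃ i : Fin r, i.val + 1 = w.L.val ∧ w.ρ i ≠ w.b then 1 else 2)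
  else
    (if ∃ w ∈ S, w.x = 0 ∧ ∃ i : Fin r, i.val + 2 = w.L.val ∧ w.ρ i ≠ w.b then 0 else 1)

open Classical in
/-- the image vertex. -/
noncomputable def build (S : Set (Vx B r)) (b : B) (ρ : Fin r → B) : Vx B r :=
  if Good S then ⟨b, ρ, ⟨min (lv S) (r + 2), by omega⟩, kind S⟩
  else ⟨b, ρ, ⟨min (lv S) (r + 1), by omega⟩, 3⟩

/-- extension of an operation on `B` to the digraph. -/
noncomputable def xi {ι : Type} (f : (ι → B) → B) (I : Set ι) (v : ι → Vx B r) : Vx B r :=
  build (v '' I) (f (fun l => (v l).b)) (fun i => f (fun l => (v l).ρ i))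

theorem kind_ne_three (S : Set (Vx B r)) : kind S ≠ 3 := by
  unfold kind
  split_ifs <;> decide

theorem lv_le {S : Set (Vx B r)} {w : Vx B r} (hw : w ∈ S) : lv S ≤ w.L.val :=
  Nat.sInf_le ⟨w, hw, rfl⟩

theorem lv_mem {S : Set (Vx B r)} (hS : S.Nonempty) : ∃ w ∈ S, w.L.val = lv S := by
  have : ((fun w : Vx B r => w.L.val) '' S).Nonempty := hS.image _
  obtain ⟨w, hw, h⟩ := Nat.sInf_mem this
  exact ⟨w, hw, h⟩

theorem xi_pol {ι : Type} (R : Set (Fin r → B)) (hR : R.Nonempty) (f : (ι → B) → B)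
    (hf : Pres f R) (I : Set ι) (hI : I.Nonempty)
    (hdep : ∀ x y : ι → B, (∀ l ∈ I, x l = y l) → f x = f y) :
    IsPol (DAdj R) (xi f I : (ι → Vx B r) → Vx B r) := by
  classical
  intro u v huv
  have hL : ∀ l, (v l).L.val = (u l).L.val + 1 := fun l => (huv l).1
  have hlv : lv (v '' I) = lv (u '' I) + 1 := by
    obtain ⟨_, ⟨l, hl, rfl⟩, h1⟩ := lv_mem (hI.image u)
    obtain ⟨_, ⟨l', hl', rfl⟩, h2⟩ := lv_mem (hI.image v)
    have h3 := lv_le (S := v '' I) ⟨l, hl, rfl⟩
    have h4 := lv_le (S := u '' I) ⟨l', hl', rfl⟩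
    have := hL l
    have := hL l'
    omega
  have h3 : ∀ l, (u l).x = 3 ↔ (v l).x = 3 := by
    intro l
    rcases (huv l).2 with h | h
    · simp [h.1, h.2.1]
    · simp [h.1, h.2.1]
  have hgood : Good (u '' I) ↔ Good (v '' I) := by
    constructor
    · rintro h _ ⟨l, hl, rfl⟩
      have := h _ ⟨l, hl, rfl⟩
      refine ⟨fun h' => this.1 ((h3 l).2 h'), ?_⟩
      have := hL l
      omega
    · rintro h _ ⟨l, hl, rfl⟩
      have := h _ ⟨l, hl, rfl⟩
      refine ⟨fun h' => this.1 ((h3 l).1 h'), ?_⟩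
      have := hL l
      omega
  obtain ⟨l0, hl0⟩ := hI
  have hb : lv (v '' I) ≤ r + 2 := by
    have := lv_le (S := v '' I) ⟨l0, hl0, rfl⟩
    have := (v l0).L.isLt
    omega
  by_cases hg : Good (u '' I)
  · have hg' := hgood.1 hg
    have hmain : ∀ l ∈ I, (u l).x ≠ 3 ∧ (v l).x ≠ 3 ∧ (u l).x ≠ 0 ∧ (v l).x ≠ 2 ∧
        ((v l).L.val ≤ r + 1 → (u l).b = (v l).b) ∧
        (1 ≤ (u l).L.val → (u l).ρ = (v l).ρ) ∧ (v l).ρ ∈ R ∧
        ((u l).x = 1 → (v l).x = 1 → ∀ i : Fin r, i.val + 1 = (u l).L.val →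
          (v l).ρ i = (u l).b) := by
      intro l hl
      rcases (huv l).2 with h | h
      · exact absurd h.1 (hg _ ⟨l, hl, rfl⟩).1
      · exact h
    have hLu : ∀ l ∈ I, (u l).L.val = lv (u '' I) := fun l hl => (hg _ ⟨l, hl, rfl⟩).2
    have hLv : ∀ l ∈ I, (v l).L.val = lv (v '' I) := fun l hl => (hg' _ ⟨l, hl, rfl⟩).2
    simp only [xi, build, if_pos hg, if_pos hg']
    refine ⟨by simp only []; omega, Or.inr ⟨kind_ne_three _, kind_ne_three _, ?_, ?_, ?_, ?_, ?_, ?_⟩⟩
    · simp only [kind]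
      split_ifs with h1 h2 h2
      · decide
      · decide
      · obtain ⟨_, ⟨l, hl, rfl⟩, h, -⟩ := h2
        exact absurd h (hmain l hl).2.2.1
      · decide
    · simp only [kind]
      split_ifs with h1 h2 h2
      · decide
      · obtain ⟨_, ⟨l, hl, rfl⟩, h⟩ := h1
        exact absurd h (hmain l hl).2.2.2.1
      · decide
      · decide
    · intro h
      apply hdep
      intro l hl
      apply (hmain l hl).2.2.2.2.1
      have := hLv l hl
      simp only [] at h
      omega
    · intro h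
      funext i
      apply hdep
      intro l hl
      have h1 : 1 ≤ (u l).L.val := by
        have := hLu l hl
        simp only [] at h
        omega
      rw [(hmain l hl).2.2.2.2.2.1 h1]
    · obtain ⟨ρ0, hρ0⟩ := hR
      have := hf (fun l => if l ∈ I then (v l).ρ else ρ0) (by
        intro l
        split_ifs with hl
        · exact (hmain l hl).2.2.2.2.2.2.1
        · exact hρ0)
      convert this using 2 with i
      apply hdep
      intro l hl
      simp [hl]
    · intro hk hk' i hi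
      simp only [] at hk hk' hi ⊢
      apply hdep
      intro l hl
      by_contra hne
      have hi' : ∀ l ∈ I, i.val + 1 = (u l).L.val := by
        intro l hl
        have := hLu l hl
        omega
      have hir := i.isLt
      have hbb : ∀ l ∈ I, (u l).b = (v l).b := by
        intro l hl
        apply (hmain l hl).2.2.2.2.1
        have := hi' l hl
        have := hL l
        omega
      have hρρ : ∀ l ∈ I, (u l).ρ = (v l).ρ := by
        intro l hl
        apply (hmain l hl).2.2.2.2.2.1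
        have := hi' l hl
        omega
      -- all coordinates without the shortcut end in a junction
      have hv1 : ∀ l ∈ I, (v l).ρ i ≠ (u l).b → (v l).x = 1 := by
        intro l hl hne
        have h2 : ¬ ∃ w ∈ v '' I, w.x = 2 := by
          rintro ⟨_, ⟨l', hl', rfl⟩, h⟩
          exact (hmain l' hl').2.2.2.1 h
        have h0 : (v l).x ≠ 0 := by
          intro h0
          have : ∃ w ∈ v '' I, w.x = 0 ∧ ∃ i : Fin r, i.val + 2 = w.L.val ∧ w.ρ i ≠ w.b := by
            refine ⟨v l, ⟨l, hl, rfl⟩, h0, i, ?_, ?_⟩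
            · have := hi' l hl
              have := hL l
              omega
            · rw [← hbb l hl]; exact hne
          simp only [kind, if_neg h2, if_pos this] at hk'
          exact absurd hk' (by decide)
        have h2' := (hmain l hl).2.2.2.1
        have h3' := (hmain l hl).2.1
        generalize (v l).x = z at *
        fin_cases z <;> simp_all
      by_cases h2 : ∃ w ∈ u '' I, w.x = 2
      · simp only [kind, if_pos h2] at hk
        split_ifs at hk with h4
        · obtain ⟨_, ⟨l', hl', rfl⟩, hx, i', hi1, hi2⟩ := h4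
          have hii : i' = i := by
            apply Fin.ext
            have := hi' l' hl'
            omega
          subst hii
          rw [hρρ l' hl'] at hi2
          exact hi2 ((hmain l' hl').2.2.2.2.2.2.2 hx (hv1 l' hl' hi2) i' hi1)
        · exact absurd hk (by decide)
      · have hx : (u l).x = 1 := by
          have h2' : (u l).x ≠ 2 := fun h => h2 ⟨u l, ⟨l, hl, rfl⟩, h⟩
          have h0' := (hmain l hl).2.2.1
          have h3' := (hmain l hl).1
          generalize (u l).x = z at *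
          fin_cases z <;> simp_all
        exact hne ((hmain l hl).2.2.2.2.2.2.2 hx (hv1 l hl hne) i (hi' l hl))
  · have hg' : ¬ Good (v '' I) := fun h => hg (hgood.2 h)
    have hb' : lv (v '' I) ≤ r + 1 := by
      by_contra hc
      apply hg'
      rintro _ ⟨l, hl, rfl⟩
      have h1 := lv_le (S := v '' I) ⟨l, hl, rfl⟩
      have h2 := (v l).L.isLt
      refine ⟨?_, by omega⟩
      rcases (huv l).2 with h | h
      · have := h.2.2; omega
      · exact h.2.1
    simp only [xi, build, if_neg hg, if_neg hg']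
    exact ⟨by simp only []; omega, Or.inl ⟨rfl, rfl, by simp only []; omega⟩⟩

theorem xi_minor {ι κ : Type} (f : (ι → B) → B) (I : Set ι) (σ : ι → κ) (v : κ → Vx B r) :
    xi (fun x : κ → B => f (fun l => x (σ l))) (σ '' I) v = xi f I (fun l => v (σ l)) := by
  simp only [xi, Set.image_image]

theorem hasTS_of_ts (R : Set (Fin r → B)) (hR : R.Nonempty) {j : ℕ} (hj : 0 < j)
    (t : (Fin j → B) → B) (ht : Pres t R)
    (hs : ∀ x y, Set.range x = Set.range y → t x = t y) : HasTS (DAdj R) j := by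
  refine ⟨xi t Set.univ, xi_pol R hR t ht _ ⟨⟨0, hj⟩, trivial⟩ ?_, ?_⟩
  · intro x y h
    congr 1
    funext l
    exact h l trivial
  · intro x y h
    simp only [xi, Set.image_univ, h]
    congr 1
    · apply hs
      have h1 : Set.range (fun l => (x l).b) = Vx.b '' Set.range x := Set.range_comp Vx.b x
      have h2 : Set.range (fun l => (y l).b) = Vx.b '' Set.range y := Set.range_comp Vx.b y
      rw [h1, h2, h]
    · funext i
      apply hs
      have h1 : Set.range (fun l => (x l).ρ i) = (fun w : Vx B r => w.ρ i) '' Set.range x :=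
        Set.range_comp (fun w : Vx B r => w.ρ i) x
      have h2 : Set.range (fun l => (y l).ρ i) = (fun w : Vx B r => w.ρ i) '' Set.range y :=
        Set.range_comp (fun w : Vx B r => w.ρ i) y
      rw [h1, h2, h]

/-- restriction of a polymorphism of the digraph to `B`. -/
def zeta {ι : Type} (ρ0 : Fin r → B) (φ : (ι → Vx B r) → Vx B r) (x : ι → B) : B :=
  (φ (fun l => ⟨x l, ρ0, 0, 1⟩)).b

theorem zeta_pres {ι : Type} (R : Set (Fin r → B)) (ρ0 : Fin r → B) (b0 : B)
    (φ : (ι → Vx B r) → Vx B r) (hφ : IsPol (DAdj R) φ) : Pres (zeta ρ0 φ) R := by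
  intro ρ hρ
  let top : Vx B r := φ (fun l => ⟨b0, ρ l, ⟨r + 2, by omega⟩, 1⟩)
  have key : ∀ b : ι → B, top.ρ ∈ R ∧
      ∀ i : Fin r, (∀ l, ρ l i = b l) → top.ρ i = zeta ρ0 φ b := by
    intro b
    let s : Vx B r := φ (fun l => ⟨b l, ρ0, 0, 1⟩)
    let w : (M : ℕ) → M < r + 3 → Fin 4 → Vx B r :=
      fun M hM x => φ (fun l => ⟨b l, ρ l, ⟨M, hM⟩, x⟩)
    have e0 : DAdj R s (w 1 (by omega) 1) := by
      apply hφ
      intro l
      refine ⟨rfl, Or.inr ⟨by simp, by simp, by simp, by simp, by simp, by simp, hρ l, ?_⟩⟩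
      intro _ _ i hi
      simp at hi
    have e1 : ∀ (M : ℕ) (hM : M + 1 < r + 3) (x y : Fin 4), x ≠ 3 → y ≠ 3 → x ≠ 0 → y ≠ 2 →
        (x = 1 → y = 1 → ∀ i : Fin r, i.val + 1 = M → ∀ l, ρ l i = b l) →
        DAdj R (w M (by omega) x) (w (M + 1) hM y) := by
      intro M hM x y h1 h2 h3 h4 h5
      apply hφ
      intro l
      exact ⟨rfl, Or.inr ⟨h1, h2, h3, h4, fun _ => rfl, fun _ => rfl, hρ l,
        fun a c i hi => h5 a c i hi l⟩⟩
    have e2 : DAdj R (w (r + 1) (by omega) 1) top := by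
      apply hφ
      intro l
      refine ⟨rfl, Or.inr ⟨by simp, by simp, by simp, by simp, by simp, by simp, hρ l, ?_⟩⟩
      intro _ _ i hi
      have := i.isLt
      simp at hi
      omega
    have ea : ∀ (M : ℕ) (hM : M + 1 < r + 3), DAdj R (w M (by omega) 1) (w (M + 1) hM 0) :=
      fun M hM => e1 M hM 1 0 (by decide) (by decide) (by decide) (by decide)
        (fun _ h => absurd h (by decide))
    have eb : ∀ (M : ℕ) (hM : M + 1 < r + 3), DAdj R (w M (by omega) 2) (w (M + 1) hM 0) :=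
      fun M hM => e1 M hM 2 0 (by decide) (by decide) (by decide) (by decide)
        (fun h => absurd h (by decide))
    have ec : ∀ (M : ℕ) (hM : M + 1 < r + 3), DAdj R (w M (by omega) 2) (w (M + 1) hM 1) :=
      fun M hM => e1 M hM 2 1 (by decide) (by decide) (by decide) (by decide)
        (fun h => absurd h (by decide))
    have h3 : ∀ {u v : Vx B r}, DAdj R u v → (u.x = 3 ↔ v.x = 3) := by
      intro u v h
      rcases h.2 with h | h
      · simp [h.1, h.2.1]
      · simp [h.1, h.2.1]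
    have hlev : ∀ (M : ℕ) (hM : M + 1 < r + 3),
        (w (M + 1) hM 1).L.val = s.L.val + (M + 1) ∧ ((w (M + 1) hM 1).x = 3 ↔ s.x = 3) := by
      intro M
      induction M with
      | zero => intro hM; exact ⟨e0.1, (h3 e0).symm⟩
      | succ M ih =>
        intro hM
        have a1 := ea (M + 1) hM
        have a2 := eb (M + 1) hM
        have a3 := ec (M + 1) hM
        have a4 := ih (by omega)
        refine ⟨?_, ?_⟩
        · have := a1.1
          have := a2.1
          have := a3.1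
          omega
        · rw [← h3 a3, h3 a2, ← h3 a1, a4.2]
    have htop := e2.1
    have hr := hlev r (by omega)
    have hlt := top.L.isLt
    have hs0 : s.L.val = 0 := by omega
    have hmainT : (w (r + 1) (by omega) 1).x ≠ 3 := by
      rcases e2.2 with h | h
      · have := h.2.2; omega
      · exact h.1
    have hs3 : s.x ≠ 3 := fun h => hmainT (hr.2.2 h)
    have hm : ∀ {u v : Vx B r}, DAdj R u v → (u.x ≠ 3 ∨ v.x ≠ 3) →
        u.x ≠ 3 ∧ v.x ≠ 3 ∧ u.x ≠ 0 ∧ v.x ≠ 2 ∧ (v.L.val ≤ r + 1 → u.b = v.b) ∧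
        (1 ≤ u.L.val → u.ρ = v.ρ) ∧ v.ρ ∈ R ∧
        (u.x = 1 → v.x = 1 → ∀ i : Fin r, i.val + 1 = u.L.val → v.ρ i = u.b) := by
      intro u v h h'
      rcases h.2 with h | h
      · rcases h' with h' | h'
        · exact absurd h.1 h'
        · exact absurd h.2.1 h'
      · exact h
    have hJ3 : ∀ (M : ℕ) (hM : M + 1 < r + 3), (w (M + 1) hM 1).x ≠ 3 :=
      fun M hM h => hs3 ((hlev M hM).2.1 h)
    have hlab : ∀ (M : ℕ) (hM : M + 1 < r + 2),
        (w (M + 1) (by omega) 1).b = s.b ∧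
          (w (M + 1) (by omega) 1).ρ = (w 1 (by omega) 1).ρ := by
      intro M
      induction M with
      | zero =>
        intro hM
        refine ⟨((hm e0 (Or.inl hs3)).2.2.2.2.1 ?_).symm, rfl⟩
        have := e0.1
        omega
      | succ M ih =>
        intro hM
        have a1 := ea (M + 1) (by omega)
        have a2 := eb (M + 1) (by omega)
        have a3 := ec (M + 1) (by omega)
        have a4 := ih (by omega)
        have b1 := hm a1 (Or.inl (hJ3 M (by omega)))
        have b2 := hm a2 (Or.inr b1.2.1)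
        have b3 := hm a3 (Or.inl b2.1)
        have c0 := (hlev M (by omega)).1
        have c1 := a1.1
        have c2 := a2.1
        have c3 := a3.1
        refine ⟨?_, ?_⟩
        · rw [← b3.2.2.2.2.1 (by omega), b2.2.2.2.2.1 (by omega), ← b1.2.2.2.2.1 (by omega), a4.1]
        · rw [← b3.2.2.2.2.2.1 (by omega), b2.2.2.2.2.2.1 (by omega),
            ← b1.2.2.2.2.2.1 (by omega), a4.2]
    have bT := hm e2 (Or.inl hmainT)
    have hρtop : top.ρ = (w 1 (by omega) 1).ρ := by
      rw [← bT.2.2.2.2.2.1 (by omega), (hlab r (by omega)).2]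
    refine ⟨bT.2.2.2.2.2.2.1, ?_⟩
    intro i hi
    have hir := i.isLt
    have hJ : ∀ (M : ℕ) (hM : M + 1 < r + 2), (w (M + 1) (by omega) 1).x = 1 := by
      intro M hM
      have h0 : (w (M + 1) (by omega) 1).x ≠ 0 :=
        (hm (ea (M + 1) (by omega)) (Or.inl (hJ3 M (by omega)))).2.2.1
      have h2 : (w (M + 1) (by omega) 1).x ≠ 2 := by
        cases M with
        | zero => exact (hm e0 (Or.inl hs3)).2.2.2.1
        | succ M => exact (hm (ec (M + 1) (by omega)) (Or.inr (hJ3 _ (by omega)))).2.2.2.1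
      have h3' := hJ3 M (by omega)
      generalize (w (M + 1) (by omega) 1).x = z at *
      fin_cases z <;> simp_all
    have ed := e1 (i.val + 1) (by omega) 1 1 (by decide) (by decide) (by decide) (by decide)
      (fun _ _ i' hi' l => by
        have : i' = i := Fin.ext (by omega)
        rw [this]; exact hi l)
    have := (hm ed (Or.inl (hJ3 _ (by omega)))).2.2.2.2.2.2.2 (hJ _ (by omega)) (hJ _ (by omega)) i
      (by have := (hlev i.val (by omega)).1; omega)
    rw [(hlab (i.val + 1) (by omega)).2, (hlab i.val (by omega)).1] at this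
    rw [hρtop, this]
    rfl
  have h1 := (key (fun _ => b0)).1
  convert h1 using 1
  funext i
  exact ((key (fun l => ρ l i)).2 i (fun _ => rfl)).symm

theorem zeta_ts {j : ℕ} (ρ0 : Fin r → B) (φ : (Fin j → Vx B r) → Vx B r)
    (hs : ∀ x y, Set.range x = Set.range y → φ x = φ y) (x y : Fin j → B)
    (h : Set.range x = Set.range y) : zeta ρ0 φ x = zeta ρ0 φ y := by
  unfold zeta
  rw [hs]
  have h1 : Set.range (fun l => (⟨x l, ρ0, 0, 1⟩ : Vx B r)) =
      (fun b => (⟨b, ρ0, 0, 1⟩ : Vx B r)) '' Set.range x :=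
    Set.range_comp (fun b => (⟨b, ρ0, 0, 1⟩ : Vx B r)) x
  have h2 : Set.range (fun l => (⟨y l, ρ0, 0, 1⟩ : Vx B r)) =
      (fun b => (⟨b, ρ0, 0, 1⟩ : Vx B r)) '' Set.range y :=
    Set.range_comp (fun b => (⟨b, ρ0, 0, 1⟩ : Vx B r)) y
  rw [h1, h2, h]

end Pool.Agent.H625Z.PP
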