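import Mathlib

set_option autoImplicit false

namespace Pool.Agent.H625Z.PP

/-- `f` is a polymorphism of the digraph `E`. -/
def IsPol {V ι : Type} (E : V → V → Prop) (f : (ι → V) → V) : Prop :=
  ∀ x y : ι → V, (∀ l, E (x l) (y l)) → E (f x) (f y)

/-- the digraph has a totally symmetric polymorphism of arity `j`. -/
def HasTS {V : Type} (E : V → V → Prop) (j : ℕ) : Prop :=
  ∃ f : (Fin j → V) → V, IsPol E f ∧ ∀ x y, Set.range x = Set.range y → f x = f y

/-- transport of a finite digraph to `Fin`. -/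
noncomputable def toFin (V : Type) [Fintype V] (E : V → V → Prop) :
    Digraph (Fin (Fintype.card V)) :=
  ⟨fun a b => E ((Fintype.equivFin V).symm a) ((Fintype.equivFin V).symm b)⟩

/-- pp-constructibility, as in the frozen statement. -/
def PPC (kB : ℕ) (B : Digraph (Fin kB)) (kA : ℕ) (A : Digraph (Fin kA)) : Prop :=
  ∃ (n m : ℕ)
    (Es Qs : Set (((Fin 2 × Fin n) ⊕ Fin m) × ((Fin 2 × Fin n) ⊕ Fin m)))
    (E : (Fin n → Fin kB) → (Fin n → Fin kB) → Prop),
    0 < n ∧
    (∀ x y : Fin n → Fin kB, E x y ↔ ∃ s : Fin m → Fin kB,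
        (∀ p ∈ Es,
          B.Adj (Sum.elim (fun q : Fin 2 × Fin n => (![x, y] q.1) q.2) s p.1)
                (Sum.elim (fun q : Fin 2 × Fin n => (![x, y] q.1) q.2) s p.2)) ∧
        (∀ p ∈ Qs,
          Sum.elim (fun q : Fin 2 × Fin n => (![x, y] q.1) q.2) s p.1 =
            Sum.elim (fun q : Fin 2 × Fin n => (![x, y] q.1) q.2) s p.2)) ∧
    (∃ f : Fin kA → (Fin n → Fin kB), ∀ a b : Fin kA, A.Adj a b → E (f a) (f b)) ∧
    (∃ g : (Fin n → Fin kB) → Fin kA,
        ∀ x y : Fin n → Fin kB, E x y → A.Adj (g x) (g y))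

theorem hasTS_toFin {V : Type} [Fintype V] (E : V → V → Prop) (j : ℕ) :
    HasTS (toFin V E).Adj j ↔ HasTS E j := by
  set e := Fintype.equivFin V with he
  constructor
  · rintro ⟨f, hf, hs⟩
    refine ⟨fun x => e.symm (f (fun l => e (x l))), ?_, ?_⟩
    · intro x y hxy
      apply hf
      intro l
      simpa [toFin, ← he] using hxy l
    · intro x y hxy
      have : Set.range (fun l => e (x l)) = Set.range (fun l => e (y l)) := by
        have h1 : Set.range (fun l => e (x l)) = e '' Set.range x := Set.range_comp e x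
        have h2 : Set.range (fun l => e (y l)) = e '' Set.range y := Set.range_comp e y
        rw [h1, h2, hxy]
      simp only [hs _ _ this]
  · rintro ⟨f, hf, hs⟩
    refine ⟨fun x => e (f (fun l => e.symm (x l))), ?_, ?_⟩
    · intro x y hxy
      have := hf (fun l => e.symm (x l)) (fun l => e.symm (y l)) hxy
      simpa [toFin, ← he] using this
    · intro x y hxy
      have : Set.range (fun l => e.symm (x l)) = Set.range (fun l => e.symm (y l)) := by
        have h1 : Set.range (fun l => e.symm (x l)) = e.symm '' Set.range x :=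
          Set.range_comp e.symm x
        have h2 : Set.range (fun l => e.symm (y l)) = e.symm '' Set.range y :=
          Set.range_comp e.symm y
        rw [h1, h2, hxy]
      simp only [hs _ _ this]

theorem hasTS_of_ppc {kB kA : ℕ} {B : Digraph (Fin kB)} {A : Digraph (Fin kA)} {j : ℕ}
    (h : PPC kB B kA A) (hB : HasTS B.Adj j) : HasTS A.Adj j := by
  obtain ⟨n, m, Es, Qs, E, -, hE, ⟨f, hf⟩, ⟨g, hg⟩⟩ := h
  obtain ⟨t, ht, hs⟩ := hB
  refine ⟨fun x => g (fun c => t (fun l => f (x l) c)), ?_, ?_⟩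
  · intro x y hxy
    apply hg
    have h1 : ∀ l, E (f (x l)) (f (y l)) := fun l => hf _ _ (hxy l)
    choose s hs1 hs2 using fun l => (hE _ _).1 (h1 l)
    have key : ∀ p : (Fin 2 × Fin n) ⊕ Fin m,
        Sum.elim (fun q : Fin 2 × Fin n =>
          (![fun c => t (fun l => f (x l) c), fun c => t (fun l => f (y l) c)] q.1) q.2)
          (fun c => t (fun l => s l c)) p =
        t (fun l => Sum.elim (fun q : Fin 2 × Fin n => (![f (x l), f (y l)] q.1) q.2) (s l) p) := by
      rintro (⟨a, c⟩ | c)
      · fin_cases a <;> simp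
      · simp
    refine (hE _ _).2 ⟨fun c => t (fun l => s l c), ?_, ?_⟩
    · intro p hp
      rw [key, key]
      exact ht _ _ (fun l => hs1 l p hp)
    · intro p hp
      rw [key, key]
      congr 1
      funext l
      exact hs2 l p hp
  · intro x y hxy
    have : ∀ c, t (fun l => f (x l) c) = t (fun l => f (y l) c) := by
      intro c
      apply hs
      have h1 : Set.range (fun l => f (x l) c) = (fun a => f a c) '' Set.range x :=
        Set.range_comp (fun a => f a c) x
      have h2 : Set.range (fun l => f (y l) c) = (fun a => f a c) '' Set.range y :=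
        Set.range_comp (fun a => f a c) y
      rw [h1, h2, hxy]
    simp only [this]

theorem ppc_of_map {V W : Type} [Fintype V] [Fintype W] [Nonempty V]
    (E : V → V → Prop) (F : W → W → Prop) (g : ((W → V) → V) → W)
    (hg : ∀ h : ({p : W × W // F p.1 p.2} → V) → V, IsPol E h →
      F (g (fun x => h (fun e => x e.1.1))) (g (fun x => h (fun e => x e.1.2)))) :
    PPC _ (toFin V E) _ (toFin W F) := by
  classical
  set eV := Fintype.equivFin V with heV
  set eW := Fintype.equivFin W with heW
  let ε := {p : W × W // F p.1 p.2}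
  let n := Fintype.card (W → V)
  let m := Fintype.card (ε → V)
  let eN : (W → V) ≃ Fin n := Fintype.equivFin _
  let eM : (ε → V) ≃ Fin m := Fintype.equivFin _
  let Es : Set (((Fin 2 × Fin n) ⊕ Fin m) × ((Fin 2 × Fin n) ⊕ Fin m)) :=
    {p | ∃ u v : ε → V, (∀ e, E (u e) (v e)) ∧ p = (Sum.inr (eM u), Sum.inr (eM v))}
  let Qs : Set (((Fin 2 × Fin n) ⊕ Fin m) × ((Fin 2 × Fin n) ⊕ Fin m)) :=
    {p | ∃ u : W → V, p = (Sum.inl (0, eN u), Sum.inr (eM (fun e => u e.1.1))) ∨
      p = (Sum.inl (1, eN u), Sum.inr (eM (fun e => u e.1.2)))}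
  refine ⟨n, m, Es, Qs, _, Fintype.card_pos, fun x y => Iff.rfl,
    ⟨fun a c => eV (eN.symm c (eW.symm a)), ?_⟩,
    ⟨fun x => eW (g (fun u => eV.symm (x (eN u)))), ?_⟩⟩
  · intro a b hab
    refine ⟨fun c => eV (eM.symm c ⟨(eW.symm a, eW.symm b), hab⟩), ?_, ?_⟩
    · rintro p ⟨u, v, huv, rfl⟩
      simpa [toFin, ← heV] using huv _
    · rintro p ⟨u, rfl | rfl⟩ <;> simp
  · rintro x y ⟨s, hs1, hs2⟩
    have hp : IsPol E (fun z : ε → V => eV.symm (s (eM z))) := by
      intro u v huv
      exact hs1 _ ⟨u, v, huv, rfl⟩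
    have h1 := hg _ hp
    have e1 : (fun u => eV.symm (x (eN u))) =
        fun u : W → V => eV.symm (s (eM (fun e : ε => u e.1.1))) := by
      funext u
      have := hs2 _ ⟨u, Or.inl rfl⟩
      simpa using this
    have e2 : (fun u => eV.symm (y (eN u))) =
        fun u : W → V => eV.symm (s (eM (fun e : ε => u e.1.2))) := by
      funext u
      have := hs2 _ ⟨u, Or.inr rfl⟩
      simpa using this
    simp only [toFin, ← heW, Equiv.symm_apply_apply]
    rw [e1, e2]
    exact h1

end Pool.Agent.H625Z.PP
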